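import Mathlib

/-!
# `d(S, R) < ∞` does not bound the relative Davenport constants of `S / H`

Let `S` be the monoid of pairs `(A, i)`, with `A` a finite set of natural numbers (under union) and
`i ∈ {0, 1, 2}` (under addition truncated at `2`). Two elements with `i = 1` satisfy
`(X^s - X^{e(s)}) (X^t - X^{e(t)}) = 0` and the elements with `i ≠ 1` are idempotent, so
`d(S, R) ≤ 1` for every nonzero ring `R`. On the other hand the element `({0, ..., n - 1}, 1)` is
the sum of the irreducible sequence consisting of `(∅, 1)` and the `({j}, 0)`, `j < n`.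
-/

set_option autoImplicit false

namespace Pool.Agent.Results.MP_6ad575_co.SemilatticeCounterexample

section Defs

variable {S : Type*} [AddCommMonoid S]

/-- The cyclic subsemigroup generated by `x`. -/
def cyc (x : S) : Set S := {y | ∃ m : ℕ, 1 ≤ m ∧ y = m • x}

/-- `e` is an idempotent of the cyclic subsemigroup generated by `x`. -/
def IsIdemOf (x e : S) : Prop := e ∈ cyc x ∧ e + e = e

/-- The idempotent `e(x)` of the cyclic subsemigroup generated by `x` (unique if that subsemigroup
is finite). -/
noncomputable def idem (x : S) : S := Classical.epsilon (IsIdemOf x)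

/-- The subset `C` is a group under the addition of `S`. -/
def IsGrp (C : Set S) : Prop :=
  ∃ e ∈ C, (∀ y ∈ C, e + y = y) ∧ ∀ y ∈ C, ∃ z ∈ C, y + z = e

/-- The relation `a ⪯ b`. -/
def Below (a b : S) : Prop := a = b ∨ ∃ c, a = b + c

theorem Below.trans {a b c : S} (h1 : Below a b) (h2 : Below b c) : Below a c := by
  rcases h1 with rfl | ⟨x, rfl⟩
  · exact h2
  · rcases h2 with rfl | ⟨y, rfl⟩
    · exact Or.inr ⟨x, rfl⟩
    · exact Or.inr ⟨y + x, by rw [add_assoc]⟩

theorem Below.add {a b c d : S} (h1 : Below a b) (h2 : Below c d) : Below (a + c) (b + d) := by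
  rcases h1 with rfl | ⟨x, rfl⟩
  · rcases h2 with rfl | ⟨y, rfl⟩
    · exact Or.inl rfl
    · exact Or.inr ⟨y, by rw [add_assoc]⟩
  · rcases h2 with rfl | ⟨y, rfl⟩
    · exact Or.inr ⟨x, by abel⟩
    · exact Or.inr ⟨x + y, by abel⟩

variable (S) in
/-- Every cyclic subsemigroup is finite. -/
def Periodic : Prop := ∀ x : S, (cyc x).Finite

variable (S) in
/-- Green's relation `H`, as a congruence. -/
def hcon : AddCon S where
  r a b := Below a b ∧ Below b a
  iseqv :=
    { refl := fun _ => ⟨Or.inl rfl, Or.inl rfl⟩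
      symm := fun h => ⟨h.2, h.1⟩
      trans := fun h1 h2 => ⟨h1.1.trans h2.1, h2.2.trans h1.2⟩ }
  add' h1 h2 := ⟨h1.1.add h2.1, h1.2.add h2.2⟩

/-- A sequence (multiset) no proper subsequence of which has the same sum. -/
def Irred (M : Multiset S) : Prop := ∀ N ≤ M, N ≠ M → N.sum ≠ M.sum

variable (S) in
/-- The set of lengths `l` of sequences `s_1, ..., s_l` over `S` such that the product of the
elements `X^{s_i} - a_i X^{e(s_i)}` of the semigroup ring `R[X; S]` is non-zero for all non-zero
`a_1, ..., a_l`. Its supremum is `d(S, R)`. -/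
def dSet (R : Type*) [CommRing R] : Set ℕ :=
  {l | ∃ s : Fin l → S, ∀ a : Fin l → R, (∀ i, a i ≠ 0) →
    ∏ i, ((AddMonoidAlgebra.single (s i) (1 : R) : AddMonoidAlgebra R S) -
      AddMonoidAlgebra.single (idem (s i)) (a i)) ≠ 0}

end Defs

/-! ### The example -/

/-- Pairs of a finite set of natural numbers and an element of `{0, 1, 2}`. -/
@[ext] structure Ex where
  A : Finset ℕ
  i : Fin 3

/-- Addition in `{0, 1, 2}` truncated at `2`. -/
def tadd (i j : Fin 3) : Fin 3 := if i.1 + j.1 = 0 then 0 else if i.1 + j.1 = 1 then 1 else 2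

instance : Zero Ex := ⟨⟨∅, 0⟩⟩

instance : Add Ex := ⟨fun s t => ⟨s.A ∪ t.A, tadd s.i t.i⟩⟩

theorem add_def (s t : Ex) : s + t = ⟨s.A ∪ t.A, tadd s.i t.i⟩ := rfl

theorem zero_def : (0 : Ex) = ⟨∅, 0⟩ := rfl

instance : AddCommMonoid Ex where
  add_assoc a b c := by
    simp only [add_def, Finset.union_assoc, Ex.mk.injEq, true_and]
    generalize a.i = x; generalize b.i = y; generalize c.i = z
    revert x y z; decide
  zero_add a := by
    simp only [add_def, zero_def, Finset.empty_union]
    ext1
    · rfl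
    · show tadd 0 a.i = a.i
      generalize a.i = x
      revert x; decide
  add_zero a := by
    simp only [add_def, zero_def, Finset.union_empty]
    ext1
    · rfl
    · show tadd a.i 0 = a.i
      generalize a.i = x
      revert x; decide
  add_comm a b := by
    simp only [add_def, Finset.union_comm a.A b.A, Ex.mk.injEq, true_and]
    generalize a.i = x; generalize b.i = y
    revert x y; decide
  nsmul := nsmulRec

theorem nsmul_A (x : Ex) (m : ℕ) : ((m + 1) • x).A = x.A := by
  induction m with
  | zero => rw [zero_add, one_smul]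
  | succ m ih => rw [succ_nsmul, add_def]; simp only [ih, Finset.union_self]

theorem cyc_finite (x : Ex) : (cyc x).Finite := by
  refine (Set.finite_range (fun j : Fin 3 => (⟨x.A, j⟩ : Ex))).subset ?_
  rintro y ⟨m, hm, rfl⟩
  obtain ⟨k, rfl⟩ := Nat.exists_eq_add_of_le' hm
  refine ⟨((k + 1) • x).i, ?_⟩
  ext1
  · exact (nsmul_A x k).symm
  · rfl

theorem nsmul_i (x : Ex) (hx : x.i = 1) (m : ℕ) : ((m + 1) • x).i ≠ 0 := by
  induction m with
  | zero => rw [zero_add, one_smul, hx]; decide
  | succ m ih =>
    rw [succ_nsmul, add_def]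
    show tadd _ x.i ≠ 0
    rw [hx]
    revert ih
    generalize ((m + 1) • x).i = y
    revert y; decide

theorem idem_of_one (x : Ex) (hx : x.i = 1) : idem x = ⟨x.A, 2⟩ := by
  have hex : IsIdemOf x (⟨x.A, 2⟩ : Ex) := by
    refine ⟨⟨2, by norm_num, ?_⟩, ?_⟩
    · rw [two_smul, add_def, hx, Finset.union_self]
      rfl
    · rw [add_def, Finset.union_self]
      rfl
  obtain ⟨⟨m, hm, h1⟩, h2⟩ : IsIdemOf x (idem x) := Classical.epsilon_spec ⟨_, hex⟩
  obtain ⟨k, rfl⟩ := Nat.exists_eq_add_of_le' hm
  have hA : (idem x).A = x.A := by rw [h1]; exact nsmul_A x k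
  have hi : (idem x).i ≠ 0 := by rw [h1]; exact nsmul_i x hx k
  have h3 : tadd (idem x).i (idem x).i = (idem x).i := by
    have := congrArg Ex.i h2
    exact this
  ext1
  · exact hA
  · show (idem x).i = 2
    revert hi h3
    generalize (idem x).i = y
    revert y; decide

theorem idem_of_ne (x : Ex) (hx : x.i ≠ 1) : idem x = x := by
  have hxx : x + x = x := by
    ext1
    · exact Finset.union_self _
    · show tadd x.i x.i = x.i
      revert hx
      generalize x.i = y
      revert y; decide
  have hex : IsIdemOf x x := ⟨⟨1, le_rfl, (one_smul ℕ x).symm⟩, hxx⟩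
  obtain ⟨⟨m, hm, h1⟩, -⟩ : IsIdemOf x (idem x) := Classical.epsilon_spec ⟨_, hex⟩
  obtain ⟨k, rfl⟩ := Nat.exists_eq_add_of_le' hm
  rw [h1]
  clear h1 hm
  induction k with
  | zero => rw [zero_add, one_smul]
  | succ k ih => rw [succ_nsmul, ih, hxx]

theorem d_bound (R : Type*) [CommRing R] [Nontrivial R] : ∀ l ∈ dSet Ex R, l ≤ 1 := by
  rintro l ⟨s, hs⟩
  by_contra hl
  push Not at hl
  apply hs (fun _ => 1) (fun _ => one_ne_zero)
  by_cases h : ∃ i, (s i).i ≠ 1
  · obtain ⟨i, hi⟩ := h
    apply Finset.prod_eq_zero (Finset.mem_univ i)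
    rw [idem_of_ne _ hi, sub_self]
  · push Not at h
    let i0 : Fin l := ⟨0, by omega⟩
    let i1 : Fin l := ⟨1, hl⟩
    have hne : i0 ≠ i1 := by
      intro h2
      have := congrArg Fin.val h2
      simp [i0, i1] at this
    rw [← Finset.mul_prod_erase _ _ (Finset.mem_univ i0),
      ← Finset.mul_prod_erase _ _ (Finset.mem_erase.2 ⟨hne.symm, Finset.mem_univ i1⟩), ← mul_assoc]
    refine mul_eq_zero_of_left ?_ _
    rw [idem_of_one _ (h i0), idem_of_one _ (h i1), sub_mul, mul_sub, mul_sub]
    simp only [AddMonoidAlgebra.single_mul_single, mul_one, add_def, h]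
    have e1 : tadd 1 1 = 2 := rfl
    have e2 : tadd 1 2 = 2 := rfl
    have e3 : tadd 2 1 = 2 := rfl
    have e4 : tadd 2 2 = 2 := rfl
    rw [e1, e2, e3, e4, sub_self]

theorem not_grp (x : Ex) (hx : x.i = 1) : ¬ IsGrp (cyc x) := by
  rintro ⟨e, ⟨m, hm, he⟩, h1, -⟩
  have h2 := h1 x ⟨1, le_rfl, (one_smul ℕ x).symm⟩
  obtain ⟨k, rfl⟩ := Nat.exists_eq_add_of_le' hm
  have hi : e.i ≠ 0 := by rw [he]; exact nsmul_i x hx k
  have h3 : tadd e.i x.i = x.i := congrArg Ex.i h2
  rw [hx] at h3
  revert hi h3
  generalize e.i = y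
  revert y; decide

theorem below_antisymm {a b : Ex} (h1 : Below a b) (h2 : Below b a) : a = b := by
  rcases h1 with rfl | ⟨c, h1⟩
  · rfl
  · rcases h2 with h2 | ⟨d, h2⟩
    · exact h2.symm
    · have hA1 : b.A ⊆ a.A := by rw [h1, add_def]; exact Finset.subset_union_left
      have hA2 : a.A ⊆ b.A := by rw [h2, add_def]; exact Finset.subset_union_left
      have hi1 : a.i = tadd b.i c.i := congrArg Ex.i h1
      have hi2 : b.i = tadd a.i d.i := congrArg Ex.i h2
      ext1
      · exact Finset.Subset.antisymm hA2 hA1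
      · clear h1 h2 hA1 hA2
        revert hi1 hi2
        generalize a.i = x; generalize b.i = y; generalize c.i = z; generalize d.i = w
        revert x y z w; decide

/-- The quotient map by `H` has a left inverse. -/
def unH : (hcon Ex).Quotient →+ Ex :=
  (hcon Ex).lift (AddMonoidHom.id Ex) (fun _ _ h => below_antisymm h.1 h.2)

theorem unH_mk (x : Ex) : unH (x : (hcon Ex).Quotient) = x := rfl

theorem irred_of_map (M : Multiset (hcon Ex).Quotient) (h : Irred (M.map unH)) : Irred M := by
  intro N hN hne hsum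
  refine h (N.map unH) (Multiset.map_le_map hN) ?_ ?_
  · intro h2
    apply hne
    refine Multiset.eq_of_le_of_card_le hN ?_
    have := congrArg Multiset.card h2
    rw [Multiset.card_map, Multiset.card_map] at this
    exact this.ge
  · rw [← map_multiset_sum, ← map_multiset_sum, hsum]

/-- The sequence consisting of `(∅, 1)` and the `({j}, 0)` for `j < n`. -/
def seq (n : ℕ) : Multiset Ex := ⟨∅, 1⟩ ::ₘ (Multiset.range n).map (fun j => ⟨{j}, 0⟩)

theorem sum_A (M : Multiset Ex) (j : ℕ) : j ∈ M.sum.A ↔ ∃ t ∈ M, j ∈ t.A := by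
  induction M using Multiset.induction_on with
  | empty => simp [zero_def]
  | cons t M ih =>
    rw [Multiset.sum_cons, add_def]
    simp only [Finset.mem_union, ih, Multiset.mem_cons, exists_eq_or_imp]

theorem sum_i (M : Multiset Ex) (h : ∀ t ∈ M, t.i = 0) : M.sum.i = 0 := by
  induction M using Multiset.induction_on with
  | empty => rfl
  | cons t M ih =>
    rw [Multiset.sum_cons, add_def]
    show tadd t.i M.sum.i = 0
    rw [h t (Multiset.mem_cons_self t M), ih fun t ht => h t (Multiset.mem_cons_of_mem ht)]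
    rfl

theorem seq_i (n : ℕ) : (seq n).sum.i = 1 := by
  rw [seq, Multiset.sum_cons, add_def]
  show tadd 1 _ = 1
  rw [sum_i]
  · rfl
  · intro t ht
    obtain ⟨j, -, rfl⟩ := Multiset.mem_map.1 ht
    rfl

theorem seq_irred (n : ℕ) : Irred (seq n) := by
  intro N hN hne hsum
  obtain ⟨y, hy⟩ := Multiset.lt_iff_cons_le.1 (lt_of_le_of_ne hN hne)
  have hyM : y ∈ seq n := Multiset.mem_of_le hy (Multiset.mem_cons_self y N)
  have hinj : Function.Injective (fun j : ℕ => (⟨{j}, 0⟩ : Ex)) := by
    intro a b hab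
    have := congrArg Ex.A hab
    simpa using this
  rw [seq, Multiset.mem_cons] at hyM
  rcases hyM with rfl | hyM
  · rw [seq, Multiset.cons_le_cons_iff] at hy
    have h1 : N.sum.i = 0 := by
      apply sum_i
      intro t ht
      obtain ⟨j, -, rfl⟩ := Multiset.mem_map.1 (Multiset.mem_of_le hy ht)
      rfl
    rw [hsum, seq_i] at h1
    exact absurd h1 (by decide)
  · obtain ⟨j, hj, rfl⟩ := Multiset.mem_map.1 hyM
    have h1 : j ∈ (seq n).sum.A := by
      rw [sum_A]
      exact ⟨⟨{j}, 0⟩, Multiset.mem_cons_of_mem hyM, Finset.mem_singleton_self j⟩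
    rw [← hsum, sum_A] at h1
    obtain ⟨t, ht, hjt⟩ := h1
    have htM := Multiset.mem_of_le hN ht
    rw [seq, Multiset.mem_cons] at htM
    rcases htM with rfl | htM
    · simp at hjt
    · obtain ⟨k, -, rfl⟩ := Multiset.mem_map.1 htM
      have hkj : j = k := by simpa using hjt
      subst hkj
      have hnd : (seq n).Nodup := by
        rw [seq, Multiset.nodup_cons]
        refine ⟨?_, (Multiset.nodup_range n).map hinj⟩
        intro h2
        obtain ⟨k, -, h3⟩ := Multiset.mem_map.1 h2
        have := congrArg Ex.A h3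
        simp at this
      have := Multiset.nodup_of_le hy hnd
      rw [Multiset.nodup_cons] at this
      exact this.1 ht

/-- For every nonzero commutative ring `R` there is a commutative periodic monoid `S` with
`d(S, R) < ∞` such that the lengths of the irreducible sequences over `S / H` whose sum is the
class of an element `a` with `⟨a⟩` not a group are unbounded. -/
theorem result (R : Type*) [CommRing R] [Nontrivial R] :
    ∃ (S : Type) (_ : AddCommMonoid S), Periodic S ∧ BddAbove (dSet S R) ∧
      ¬ ∃ N : ℕ, ∀ a : S, ¬ IsGrp (cyc a) →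
        ∀ M : Multiset (hcon S).Quotient, Irred M → M.sum = (a : (hcon S).Quotient) →
          M.card ≤ N := by
  refine ⟨Ex, inferInstance, cyc_finite, ⟨1, d_bound R⟩, ?_⟩
  rintro ⟨N, hN⟩
  have h1 := hN (seq N).sum (not_grp _ (seq_i N)) ((seq N).map (hcon Ex).mk')
    (by
      apply irred_of_map
      rw [Multiset.map_map]
      have : (seq N).map (unH ∘ (hcon Ex).mk') = seq N := by
        conv_rhs => rw [← Multiset.map_id (seq N)]
        rfl
      rw [this]
      exact seq_irred N)
    (by
      exact (map_multiset_sum (hcon Ex).mk' (seq N)).symm)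
  rw [Multiset.card_map, seq, Multiset.card_cons, Multiset.card_map, Multiset.card_range] at h1
  omega

end Pool.Agent.Results.MP_6ad575_co.SemilatticeCounterexample
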